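import Mathlib
import Pool.Agent.H17.Disp1

namespace Pool.Agent.H17.Disp

open Pool.Agent.H17.Newton

theorem extend {d m : ℕ} (A : Matrix (Fin m) (Fin m) ℝ) (h1 : IsPMatrix A) (h2 : CondS d A)
    (h3 : ¬ IsStable A) (n : ℕ) (hn : m ≤ n) :
    ∃ A : Matrix (Fin n) (Fin n) ℝ, IsPMatrix A ∧ CondS d A ∧ ¬ IsStable A := by
  induction n, hn using Nat.le_induction with
  | base => exact ⟨A, h1, h2, h3⟩
  | succ n hn ih =>
    obtain ⟨A, h1, h2, h3⟩ := ih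
    exact ⟨ext A 1, ext_P h1, ext_S h2, ext_unst h3⟩

theorem mono {m n a b : ℕ} (hmn : m ≤ n) (ha : IsLeast (GoodD m) a) (hb : IsLeast (GoodD n) b) :
    a ≤ b := by
  by_contra hlt
  push Not at hlt
  have hbm : b ∉ GoodD m := fun h => absurd (ha.2 h) (not_le.2 hlt)
  apply hbm
  refine ⟨hb.1.1, hlt.le.trans ha.1.2.1, ?_⟩
  intro A hP hS
  by_contra hU
  obtain ⟨A', hP', hS', hU'⟩ := extend A hP hS hU n hmn
  exact hU' (hb.1.2.2 A' hP' hS')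

end Pool.Agent.H17.Disp

namespace Pool.Agent.Results.MP_40f31b_al.Lower

open Pool.Agent.H17.Newton Pool.Agent.H17.Disp

/-- For every `n ≥ 5` there is an `n × n` `P`-matrix satisfying `(S_1)` that is not stable; hence
`d(n) ≥ 2`, and `d(5) = 2` as soon as `d(5) ≤ 2` (Carlson's theorem). Moreover `d` is
nondecreasing. -/
theorem result :
    (∀ n : ℕ, 5 ≤ n → ∃ A : Matrix (Fin n) (Fin n) ℝ, IsPMatrix A ∧ CondS 1 A ∧
      ∃ z ∈ spectrum ℂ (A.map (algebraMap ℝ ℂ)), z.re ≤ 0) ∧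
    (∀ n : ℕ, 5 ≤ n → ∀ d ∈ GoodD n, 2 ≤ d) ∧
    (2 ∈ GoodD 5 → IsLeast (GoodD 5) 2) ∧
    (∀ m n a b : ℕ, m ≤ n → IsLeast (GoodD m) a → IsLeast (GoodD n) b → a ≤ b) := by
  have key : ∀ n : ℕ, 5 ≤ n → ∀ d ∈ GoodD n, 2 ≤ d := by
    intro n hn d hd
    obtain ⟨h1, _, h3⟩ := hd
    by_contra hlt
    have hd1 : d = 1 := by omega
    subst hd1
    obtain ⟨A, hP, hS, hU⟩ := exists_bad n hn
    exact hU (h3 A hP hS)
  refine ⟨?_, key, fun h => ⟨h, fun d hd => key 5 le_rfl d hd⟩, fun m n a b => mono⟩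
  intro n hn
  obtain ⟨A, hP, hS, hU⟩ := exists_bad n hn
  refine ⟨A, hP, hS, ?_⟩
  unfold IsStable at hU
  push Not at hU
  exact hU

end Pool.Agent.Results.MP_40f31b_al.Lower
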